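import Pool.Agent.L0h82.QC.Defs

/-! Project QC, module AUT. -/

set_option autoImplicit false

namespace Pool.Agent.L0h84.QC

open Pool.Agent.L0h82.QC

universe v

theorem exists_iic {P : Type v} [PartialOrder P] (σ : LowerSet P ≃o LowerSet P)
    (h : ∀ x, σ (σ x) = x) (p : P) : ∃ q, σ (LowerSet.Iic p) = LowerSet.Iic q := by
  set J := σ (LowerSet.Iic p) with hJ
  have h1 : J = ⨆ q ∈ J, LowerSet.Iic q := by
    apply le_antisymm
    · intro q hq
      exact LowerSet.mem_iSup₂_iff.2 ⟨q, hq, LowerSet.mem_Iic_iff.2 le_rfl⟩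
    · exact iSup₂_le fun q hq => LowerSet.Iic_le.2 hq
  have h2 : LowerSet.Iic p = ⨆ q ∈ J, σ (LowerSet.Iic q) := by
    have h3 : LowerSet.Iic p = σ J := (h _).symm
    rw [h3]
    conv_lhs => rw [h1]
    rw [OrderIso.map_iSup₂]
  have h4 : p ∈ ⨆ q ∈ J, σ (LowerSet.Iic q) := by
    rw [← h2]
    exact LowerSet.mem_Iic_iff.2 le_rfl
  obtain ⟨q, hq, hpq⟩ := LowerSet.mem_iSup₂_iff.1 h4
  refine ⟨q, le_antisymm ?_ (LowerSet.Iic_le.2 hq)⟩
  have h5 : LowerSet.Iic p ≤ σ (LowerSet.Iic q) := LowerSet.Iic_le.2 hpq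
  have h6 := σ.monotone h5
  rw [h] at h6
  exact h6

theorem s_AUT : S_AUT.{v} := by
  intro P _ σ h
  choose t ht using exists_iic σ h
  have htt : ∀ p, t (t p) = p := by
    intro p
    have h1 : LowerSet.Iic (t (t p)) = LowerSet.Iic p := by
      rw [← ht, ← ht, h]
    exact LowerSet.Iic_injective h1
  have hmem : ∀ (I : LowerSet P) (p : P), p ∈ I ↔ t p ∈ σ I := by
    intro I p
    rw [← LowerSet.Iic_le, ← LowerSet.Iic_le, ← ht, σ.le_iff_le]
  refine ⟨⟨⟨t, t, htt, htt⟩, fun {p q} => ?_⟩, htt, fun I => ⟨fun hI p => ?_, fun hI => ?_⟩⟩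
  · show t p ≤ t q ↔ p ≤ q
    rw [← LowerSet.mem_Iic_iff, ← ht, ← hmem, LowerSet.mem_Iic_iff]
  · show p ∈ I ↔ t p ∈ I
    rw [hmem I p, hI]
  · apply SetLike.ext
    intro q
    have h1 : q ∈ I ↔ t q ∈ I := hI q
    rw [h1, hmem I (t q), htt]

end Pool.Agent.L0h84.QC
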