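import Pool.Agent.L0h82.QC.Defs

/-! Project QC, module DIA. -/

set_option autoImplicit false

namespace Pool.Agent.L0h84.QC

open Pool.Agent.L0h82.QC

universe v

section
variable {A : Type v} {F : Ops A}

/-- the reversed quasiorder -/
def sw (r : Qord F) : Qord F :=
  ⟨fun x y => r.1 y x, fun x => r.2.1 x, fun x y z h1 h2 => r.2.2.1 z y x h2 h1,
    fun f hf a b h => r.2.2.2 f hf b a h⟩

theorem sw_sw (r : Qord F) : sw (sw r) = r := rfl

theorem sw_mono {r s : Qord F} (h : r ≤ s) : sw r ≤ sw s := fun x y hxy => h y x hxy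

/-- intersection -/
def inter (r s : Qord F) : Qord F :=
  ⟨fun x y => r.1 x y ∧ s.1 x y, fun x => ⟨r.2.1 x, s.2.1 x⟩,
    fun x y z h1 h2 => ⟨r.2.2.1 x y z h1.1 h2.1, s.2.2.1 x y z h1.2 h2.2⟩,
    fun f hf a b h => ⟨r.2.2.2 f hf a b fun i => (h i).1, s.2.2.2 f hf a b fun i => (h i).2⟩⟩

/-- the steps -/
def St (r s : Qord F) (x y : A) : Prop := r.1 x y ∨ s.1 x y

theorem st_update (r s : Qord F) (f : Σ n : ℕ, (Fin n → A) → A) (hf : f ∈ F) (c : Fin f.1 → A)
    (i : Fin f.1) {x y : A} (h : Relation.ReflTransGen (St r s) x y) :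
    Relation.ReflTransGen (St r s) (f.2 (Function.update c i x)) (f.2 (Function.update c i y)) := by
  induction h with
  | refl => exact Relation.ReflTransGen.refl
  | tail _ h ih =>
    refine ih.tail ?_
    rcases h with h | h
    · left
      refine r.2.2.2 f hf _ _ fun j => ?_
      by_cases hj : j = i
      · subst hj
        rw [Function.update_self, Function.update_self]
        exact h
      · rw [Function.update_of_ne hj, Function.update_of_ne hj]
        exact r.2.1 _
    · right
      refine s.2.2.2 f hf _ _ fun j => ?_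
      by_cases hj : j = i
      · subst hj
        rw [Function.update_self, Function.update_self]
        exact h
      · rw [Function.update_of_ne hj, Function.update_of_ne hj]
        exact s.2.1 _

theorem st_op (r s : Qord F) (f : Σ n : ℕ, (Fin n → A) → A) (hf : f ∈ F) (a b : Fin f.1 → A)
    (h : ∀ i, Relation.ReflTransGen (St r s) (a i) (b i)) :
    Relation.ReflTransGen (St r s) (f.2 a) (f.2 b) := by
  classical
  have key : ∀ t : Finset (Fin f.1),
      Relation.ReflTransGen (St r s) (f.2 a) (f.2 fun i => if i ∈ t then b i else a i) := by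
    intro t
    induction t using Finset.induction_on with
    | empty => simpa using Relation.ReflTransGen.refl
    | insert i t hi ih =>
      refine ih.trans ?_
      have h1 : (fun j => if j ∈ t then b j else a j) =
          Function.update (fun j => if j ∈ t then b j else a j) i (a i) := by
        funext j
        by_cases hj : j = i
        · subst hj
          rw [Function.update_self, if_neg hi]
        · rw [Function.update_of_ne hj]
      have h2 : (fun j => if j ∈ insert i t then b j else a j) =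
          Function.update (fun j => if j ∈ t then b j else a j) i (b i) := by
        funext j
        by_cases hj : j = i
        · subst hj
          rw [Function.update_self, if_pos (Finset.mem_insert_self _ _)]
        · rw [Function.update_of_ne hj]
          simp only [Finset.mem_insert, hj, false_or]
      rw [h1, h2]
      exact st_update r s f hf _ i (h i)
  simpa using key Finset.univ

/-- the join -/
def join (r s : Qord F) : Qord F :=
  ⟨Relation.ReflTransGen (St r s), fun _ => Relation.ReflTransGen.refl,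
    fun _ _ _ h1 h2 => h1.trans h2, fun f hf a b h => st_op r s f hf a b h⟩

end

theorem s_DIA : S_DIA.{v} := by
  intro K _ hreal s a b hs
  obtain ⟨A, _, F, φ, hφ⟩ := hreal
  -- basic facts
  have mono : ∀ (p q : K × K), p ≤ q → ∀ {x y}, (φ p).1 x y → (φ q).1 x y :=
    fun p q h {x y} => (φ.monotone h : φ p ≤ φ q) x y
  have meet : ∀ {p q : K × K} {x y}, (φ p).1 x y → (φ q).1 x y → (φ (p ⊓ q)).1 x y := by
    intro p q x y h1 h2
    have h3 : φ.symm (inter (φ p) (φ q)) ≤ p ⊓ q := by
      apply le_inf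
      · rw [φ.symm_apply_le]
        exact fun x y h => h.1
      · rw [φ.symm_apply_le]
        exact fun x y h => h.2
    have h4 : inter (φ p) (φ q) ≤ φ (p ⊓ q) := by
      rw [← φ.symm_apply_le]
      exact h3
    exact h4 x y ⟨h1, h2⟩
  have jn : ∀ {p q : K × K} {x y}, (φ (p ⊔ q)).1 x y →
      Relation.ReflTransGen (St (φ p) (φ q)) x y := by
    intro p q x y h1
    have h3 : p ⊔ q ≤ φ.symm (join (φ p) (φ q)) := by
      apply sup_le
      · rw [φ.le_symm_apply]
        exact fun x y h => Relation.ReflTransGen.single (Or.inl h)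
      · rw [φ.le_symm_apply]
        exact fun x y h => Relation.ReflTransGen.single (Or.inr h)
    exact (φ.le_symm_apply.1 h3) x y h1
  -- the involution
  set σ : K × K → K × K := fun p => φ.symm (sw (φ p)) with hσ
  have hσσ : ∀ p, σ (σ p) = p := by
    intro p
    simp only [hσ, OrderIso.apply_symm_apply, sw_sw, OrderIso.symm_apply_apply]
  have hσm : ∀ {p q}, p ≤ q → σ p ≤ σ q := fun h => φ.symm.monotone (sw_mono (φ.monotone h))
  have hfix : ∀ p, σ p = p → p.1 = p.2 := by
    intro p hp
    have h1 : sw (φ p) = φ p := by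
      have := congrArg φ hp
      simp only [hσ, OrderIso.apply_symm_apply] at this
      exact this
    have h2 : φ p ∈ ConSet F := by
      intro x y hxy
      have : (sw (φ p)).1 y x := hxy
      rw [h1] at this
      exact this
    rw [← hφ] at h2
    obtain ⟨q, hq, hqp⟩ := h2
    rw [← φ.injective hqp]
    exact hq
  have hinf : ∀ p, σ (p ⊓ σ p) = p ⊓ σ p := by
    intro p
    apply le_antisymm
    · apply le_inf
      · have := hσm (inf_le_right : p ⊓ σ p ≤ σ p)
        rwa [hσσ] at this
      · exact hσm inf_le_left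
    · have h1 : σ (p ⊓ σ p) ≤ p ⊓ σ p := by
        apply le_inf
        · have := hσm (inf_le_right : p ⊓ σ p ≤ σ p)
          rwa [hσσ] at this
        · exact hσm inf_le_left
      have h2 := hσm h1
      rwa [hσσ] at h2
  have hsup : ∀ p, σ (p ⊔ σ p) = p ⊔ σ p := by
    intro p
    have h1 : p ⊔ σ p ≤ σ (p ⊔ σ p) := by
      apply sup_le
      · have := hσm (le_sup_right : σ p ≤ p ⊔ σ p)
        rwa [hσσ] at this
      · exact hσm le_sup_left
    apply le_antisymm _ h1
    have h2 := hσm h1
    rwa [hσσ] at h2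
  have htop : σ (⊤, ⊥) = (⊥, ⊤) := by
    have h1 := hfix _ (hinf (⊤, ⊥))
    have h2 := hfix _ (hsup (⊤, ⊥))
    simp only [Prod.fst_inf, Prod.snd_inf, Prod.fst_sup, Prod.snd_sup, top_inf_eq, bot_inf_eq,
      top_sup_eq, bot_sup_eq] at h1 h2
    exact Prod.ext h1 h2.symm
  have hx : ∀ x : K, σ (x, ⊥) = (⊥, x) := by
    intro x
    have h1 : σ (x, ⊥) ≤ (⊥, ⊤) := by
      rw [← htop]
      exact hσm ⟨le_top, le_rfl⟩
    have h2 : (σ (x, ⊥)).1 = ⊥ := le_bot_iff.1 h1.1
    have h3 := hfix _ (hsup (x, ⊥))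
    simp only [Prod.fst_sup, Prod.snd_sup, bot_sup_eq, h2, sup_bot_eq] at h3
    exact Prod.ext h2 h3.symm
  have hx' : ∀ x : K, σ (⊥, x) = (x, ⊥) := by
    intro x
    rw [← hx, hσσ]
  have rev : ∀ {x y : K} {u w : A}, (φ (x, y)).1 u w → (φ (y, x)).1 w u := by
    intro x y u w h
    have h1 : sw (φ (x, y)) ≤ φ (y, x) := by
      rw [← φ.symm_apply_le]
      show σ (x, y) ≤ (y, x)
      have h2 : (x, y) ≤ σ (y, x) := by
        have h3 : ((x, y) : K × K) = (x, ⊥) ⊔ (⊥, y) := by ext1 <;> simp
        rw [h3]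
        apply sup_le
        · rw [← hx']
          exact hσm ⟨bot_le, le_rfl⟩
        · rw [← hx]
          exact hσm ⟨le_rfl, bot_le⟩
      have h4 := hσm h2
      rwa [hσσ] at h4
    exact h1 w u h
  have tr : ∀ {p : K × K} {x y z : A}, (φ p).1 x y → (φ p).1 y z → (φ p).1 x z :=
    fun {p x y z} h1 h2 => (φ p).2.2.1 x y z h1 h2
  -- the main argument
  set c := a ⊔ b with hc
  set t := (s ⊓ a) ⊔ (s ⊓ b) with ht
  have hTc : ∀ {x y}, Relation.ReflTransGen (St (φ (a, ⊥)) (φ (b, ⊥))) x y →
      (φ (c, ⊥)).1 x y := by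
    intro x y h
    induction h with
    | refl => exact (φ (c, ⊥)).2.1 _
    | tail _ h ih =>
      refine tr ih ?_
      rcases h with h | h
      · exact mono (a, ⊥) (c, ⊥) ⟨le_sup_left, le_rfl⟩ h
      · exact mono (b, ⊥) (c, ⊥) ⟨le_sup_right, le_rfl⟩ h
  have hchain : ∀ {x y z}, (φ (s, ⊥)).1 x y → (φ (c, ⊥)).1 x z → (φ (c, ⊥)).1 z y →
      (φ (s, ⊥)).1 x z := by
    intro x y z h1 h2 h3
    have h4 : (φ (s, c)).1 x z :=
      tr (mono (s, ⊥) (s, c) ⟨le_rfl, bot_le⟩ h1)
        (mono (⊥, c) (s, c) ⟨bot_le, le_rfl⟩ (rev (x := c) (y := ⊥) h3))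
    have h5 := meet h2 h4
    exact mono _ (s, ⊥) ⟨inf_le_right, inf_le_left⟩ h5
  have main : ∀ {x y}, (φ (s, ⊥)).1 x y → (φ (t, ⊥)).1 x y := by
    intro x y h1
    have h2 : (φ ((a, ⊥) ⊔ (b, ⊥))).1 x y := mono (s, ⊥) _ ⟨hs, bot_le⟩ h1
    have h3 := jn h2
    have h4 : ∀ z, Relation.ReflTransGen (St (φ (a, ⊥)) (φ (b, ⊥))) z y →
        Relation.ReflTransGen (St (φ (a, ⊥)) (φ (b, ⊥))) x z → (φ (t, ⊥)).1 z y := by
      intro z hz
      induction hz using Relation.ReflTransGen.head_induction_on with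
      | refl => exact fun _ => (φ (t, ⊥)).2.1 _
      | head hzw hwy ih =>
        rename_i z w
        intro hxz
        have hxw := hxz.tail hzw
        refine tr ?_ (ih hxw)
        have g1 : (φ (s, ⊥)).1 x z := hchain h1 (hTc hxz) (hTc (Relation.ReflTransGen.head hzw hwy))
        have g2 : (φ (s, ⊥)).1 x w := hchain h1 (hTc hxw) (hTc hwy)
        have g3 : (φ (s, s)).1 z w :=
          tr (mono (⊥, s) (s, s) ⟨bot_le, le_rfl⟩ (rev (x := s) (y := ⊥) g1))
            (mono (s, ⊥) (s, s) ⟨le_rfl, bot_le⟩ g2)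
        rcases hzw with h | h
        · exact mono _ (t, ⊥) ⟨le_sup_left, inf_le_right⟩ (meet g3 h)
        · exact mono _ (t, ⊥) ⟨le_sup_right, inf_le_right⟩ (meet g3 h)
    exact h4 x h3 Relation.ReflTransGen.refl
  have hfin : φ (s, ⊥) ≤ φ (t, ⊥) := fun x y h => main h
  exact (φ.le_iff_le.1 hfin).1

end Pool.Agent.L0h84.QC
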